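import Mathlib
import Pool.Agent.Results.MP_b61c36_nt.PPCCounterexample

set_option autoImplicit false

namespace Pool.Agent.H668Z.Energy

open Filter Topology Finset
open Pool.Agent.Results.MP_b61c36_nt.PPCCounterexample

/-- approximation by large multiples of an irrational number -/
lemma exists_pick (α : ℝ) (hα : Irrational α) (m : ℕ) (t η : ℝ) (hη : 0 < η) :
    ∃ a : ℕ, m < a ∧ nd (a * α - t) ≤ η := by
  have h1 : DenseRange (· • (α : UnitAddCircle) : ℤ → UnitAddCircle) := by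
    have := (AddCircle.denseRange_zsmul_coe_iff (a := α) (p := 1)).mpr (by simpa using hα)
    exact this
  have h2 : DenseRange (· • (α : UnitAddCircle) : ℕ → UnitAddCircle) :=
    denseRange_zsmul_iff_nsmul.mp h1
  obtain ⟨n, hn⟩ := h2.exists_dist_lt ((t - (m + 1 : ℕ) * α : ℝ) : UnitAddCircle) hη
  refine ⟨n + (m + 1), by omega, ?_⟩
  rw [dist_comm, dist_eq_norm, ← AddCircle.coe_nsmul, ← AddCircle.coe_sub,
    UnitAddCircle.norm_eq] at hn
  have h3 : ((n + (m + 1) : ℕ) : ℝ) * α - t = n • α - (t - (m + 1 : ℕ) * α) := by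
    rw [nsmul_eq_mul]; push_cast; ring
  rw [h3]
  exact hn.le

section blocks

variable (S : ℕ → ℕ)

/-- index of the last block start not exceeding `n` -/
def blk (n : ℕ) : ℕ := Nat.findGreatest (fun k => S k ≤ n) n

/-- `n` lies in a block -/
def cmb (n : ℕ) : Prop := S (blk S n) ≤ n ∧ n < S (blk S n) + 2 ^ (blk S n)

instance (n : ℕ) : Decidable (cmb S n) := by unfold cmb; infer_instance

variable {S}

lemma S_strictMono (hS : ∀ k, S k + 2 ^ k ≤ S (k + 1)) : StrictMono S := by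
  apply strictMono_nat_of_lt_succ
  intro k
  have := hS k
  have h2 : 0 < 2 ^ k := by positivity
  omega

lemma le_S (hS : ∀ k, S k + 2 ^ k ≤ S (k + 1)) (k : ℕ) : k ≤ S k :=
  (S_strictMono hS).le_apply

lemma blk_eq (hS : ∀ k, S k + 2 ^ k ≤ S (k + 1)) (k n : ℕ) (h1 : S k ≤ n) (h2 : n < S (k + 1)) :
    blk S n = k := by
  unfold blk
  rw [Nat.findGreatest_eq_iff]
  refine ⟨(le_S hS k).trans h1, fun _ => h1, fun j hj _ hle => ?_⟩
  have := (S_strictMono hS).monotone (show k + 1 ≤ j from hj)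
  omega

lemma lt_S_blk (hS : ∀ k, S k + 2 ^ k ≤ S (k + 1)) (n : ℕ) : n < S (blk S n + 1) := by
  by_contra h
  push Not at h
  have h1 : blk S n + 1 ≤ blk S n :=
    Nat.le_findGreatest (P := fun k => S k ≤ n) ((le_S hS _).trans h) h
  omega

lemma S_blk_le (n : ℕ) (h : S 0 ≤ n) : S (blk S n) ≤ n :=
  Nat.findGreatest_spec (P := fun k => S k ≤ n) (Nat.zero_le n) h

lemma le_blk (hS : ∀ k, S k + 2 ^ k ≤ S (k + 1)) (k n : ℕ) (h : S k ≤ n) : k ≤ blk S n :=
  Nat.le_findGreatest (P := fun k => S k ≤ n) ((le_S hS _).trans h) h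

lemma blk_tendsto (hS : ∀ k, S k + 2 ^ k ≤ S (k + 1)) : Tendsto (blk S) atTop atTop := by
  rw [tendsto_atTop]
  intro b
  filter_upwards [eventually_ge_atTop (S b)] with N hN
  exact le_blk hS b N hN

lemma blk_block (hS : ∀ k, S k + 2 ^ k ≤ S (k + 1)) (k i : ℕ) (hi : i < 2 ^ k) :
    blk S (S k + i) = k := by
  have := hS k
  exact blk_eq hS k _ (by omega) (by omega)

lemma cmb_block (hS : ∀ k, S k + 2 ^ k ≤ S (k + 1)) (k i : ℕ) (hi : i < 2 ^ k) :
    cmb S (S k + i) := by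
  unfold cmb
  rw [blk_block hS k i hi]
  omega

/-- the `k`-th block of indices -/
def B (S : ℕ → ℕ) (k : ℕ) : Finset ℕ := Finset.Ico (S k) (S k + 2 ^ k)

/-- the union of the blocks with index below `K` -/
def U (S : ℕ → ℕ) (K : ℕ) : Finset ℕ := (range K).biUnion (B S)

lemma B_card (k : ℕ) : (B S k).card = 2 ^ k := by
  unfold B; simp

lemma U_succ (K : ℕ) : U S (K + 1) = U S K ∪ B S K := by
  unfold U
  rw [Finset.range_add_one, Finset.biUnion_insert, Finset.union_comm]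

lemma U_card (K : ℕ) : (U S K).card ≤ 2 ^ K := by
  induction K with
  | zero => simp [U]
  | succ K ih =>
    rw [U_succ]
    refine (Finset.card_union_le _ _).trans ?_
    rw [B_card, pow_succ]
    omega

lemma mem_U_of_cmb (hS : ∀ k, S k + 2 ^ k ≤ S (k + 1)) (n N : ℕ) (hn : n < N) (h : cmb S n) :
    n ∈ U S (blk S N + 1) := by
  unfold U
  rw [Finset.mem_biUnion]
  refine ⟨blk S n, ?_, ?_⟩
  · rw [mem_range]
    have := le_blk hS (blk S n) N (h.1.trans hn.le)
    omega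
  · unfold B
    rw [Finset.mem_Ico]
    exact h

end blocks

section seq

variable (S : ℕ → ℕ) (d : ℕ → ℕ) (pick : ℕ → ℕ → ℕ)

/-- the integer sequence -/
def seq : ℕ → ℕ
  | 0 => pick 0 0
  | n + 1 => if cmb S (n + 1) then seq n + d (blk S (n + 1)) else pick (n + 1) (seq n)

variable {S d pick}

lemma seq_strictMono (hd : ∀ k, 0 < d k) (hp : ∀ n m, m < pick n m) :
    StrictMono (seq S d pick) := by
  apply strictMono_nat_of_lt_succ
  intro n
  rw [seq]
  split_ifs with h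
  · have := hd (blk S (n + 1)); omega
  · exact hp _ _

lemma seq_pos (hd : ∀ k, 0 < d k) (hp : ∀ n m, m < pick n m) (n : ℕ) : 0 < seq S d pick n := by
  have h0 : 0 < seq S d pick 0 := hp 0 0
  exact h0.trans_le ((seq_strictMono hd hp).monotone (Nat.zero_le n))

lemma seq_block (hS : ∀ k, S k + 2 ^ k ≤ S (k + 1)) (k i : ℕ) (hi : i < 2 ^ k) :
    seq S d pick (S k + i) = seq S d pick (S k) + i * d k := by
  induction i with
  | zero => simp
  | succ i ih =>
    have h1 := cmb_block hS k (i + 1) hi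
    have h2 := blk_block hS k (i + 1) hi
    rw [← add_assoc] at h1 h2 ⊢
    rw [seq, if_pos h1, h2, ih (by omega)]
    ring

lemma seq_not_cmb (n : ℕ) (h : ¬ cmb S n) : ∃ m, seq S d pick n = pick n m := by
  cases n with
  | zero => exact ⟨0, rfl⟩
  | succ n => exact ⟨seq S d pick n, by rw [seq, if_neg h]⟩

end seq

/-- additive energy of the first `N` terms -/
def en (a : ℕ → ℕ) (N : ℕ) : ℕ :=
  (((range N ×ˢ range N) ×ˢ (range N ×ˢ range N)).filter
    (fun p => a p.1.1 + a p.1.2 = a p.2.1 + a p.2.2)).card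

lemma en_ge (a : ℕ → ℕ) (N s h c D : ℕ) (hN : s + 2 * h ≤ N)
    (ha : ∀ i, i < 2 * h → a (s + i) = c + i * D) : h ^ 3 ≤ en a N := by
  classical
  have hc : (range h ×ˢ (range h ×ˢ range h)).card = h ^ 3 := by
    simp [Finset.card_product]; ring
  rw [← hc]
  unfold en
  apply Finset.card_le_card_of_injOn
    (fun p : ℕ × ℕ × ℕ => ((s + p.1, s + (p.2.1 + p.2.2)), (s + (p.1 + p.2.2), s + p.2.1)))
  · rintro ⟨x, y, u⟩ hp
    simp only [Finset.mem_coe, Finset.mem_product, Finset.mem_range, Finset.mem_filter] at hp ⊢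
    obtain ⟨hx, hy, hu⟩ := hp
    refine ⟨⟨⟨by omega, by omega⟩, by omega, by omega⟩, ?_⟩
    rw [ha x (by omega), ha (y + u) (by omega), ha (x + u) (by omega), ha y (by omega)]
    ring
  · rintro ⟨x, y, u⟩ _ ⟨x', y', u'⟩ _ hh
    simp only [Prod.mk.injEq] at hh ⊢
    omega

lemma sep (m : ℕ) (hm : 0 < m) (β c : ℝ) (hβ : nd (β - 1 / (m : ℝ)) ≤ 1 / (2 * (m : ℝ) ^ 2))
    (i i' : ℕ) (hi : i < m) (hi' : i' < m) (hne : i ≠ i') :
    1 / (2 * (m : ℝ)) ≤ nd ((c + (i : ℝ) * β) - (c + (i' : ℝ) * β)) := by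
  wlog h : i' < i generalizing i i'
  · rw [nd_sub_comm]
    exact this i' i hi' hi hne.symm (by omega)
  have hn0 : (0 : ℝ) < m := by exact_mod_cast hm
  obtain ⟨d, hd⟩ := Nat.exists_eq_add_of_lt h
  have hd1 : ((c + (i : ℝ) * β) - (c + (i' : ℝ) * β)) = ((d + 1 : ℕ) : ℝ) * β := by
    rw [hd]; push_cast; ring
  rw [hd1]
  have h1 : 1 / ((m : ℤ) : ℝ) ≤ nd ((((d + 1 : ℕ) : ℤ) : ℝ) / ((m : ℤ) : ℝ)) := by
    apply nd_div_lower _ _ (by exact_mod_cast hm)
    intro hdvd
    have := Int.le_of_dvd (by positivity) hdvd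
    omega
  push_cast at h1
  have h2 := nd_add_le (((d + 1 : ℕ) : ℝ) * β) (-(((d + 1 : ℕ) : ℝ) * (β - 1 / (m : ℝ))))
  have h3 : ((d + 1 : ℕ) : ℝ) * β + -(((d + 1 : ℕ) : ℝ) * (β - 1 / (m : ℝ))) =
      ((d : ℝ) + 1) / m := by push_cast; ring
  rw [h3, nd_neg] at h2
  have h4 := nd_nat_mul (d + 1) (β - 1 / (m : ℝ))
  have h5 : ((d + 1 : ℕ) : ℝ) * nd (β - 1 / (m : ℝ)) ≤ (m : ℝ) * (1 / (2 * (m : ℝ) ^ 2)) := by
    apply mul_le_mul _ hβ (nd_nonneg _) hn0.le
    exact_mod_cast (by omega : d + 1 ≤ m)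
  have h6 : (m : ℝ) * (1 / (2 * (m : ℝ) ^ 2)) = 1 / (2 * (m : ℝ)) := by
    field_simp
  have h7 : 1 / (m : ℝ) = 1 / (2 * (m : ℝ)) + 1 / (2 * (m : ℝ)) := by
    field_simp; norm_num
  linarith

lemma Q_le_of_sep (z : ℕ → ℝ) (X Y : Finset ℕ) (δ : ℝ)
    (hY : ∀ p ∈ Y, ∀ q ∈ Y, p ≠ q → 2 * δ ≤ nd (z p - z q)) : Q z X Y δ ≤ X.card := by
  classical
  unfold Q
  apply Finset.card_le_card_of_injOn (fun p : ℕ × ℕ => p.1)
  · intro p hp
    simp only [Finset.mem_coe, Finset.mem_filter, Finset.mem_product] at hp ⊢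
    exact hp.1.1
  · intro p hp q hq h
    simp only [Finset.mem_coe, Finset.mem_filter, Finset.mem_product] at hp hq
    simp only at h
    refine Prod.ext h ?_
    by_contra hne
    have h1 := hY _ hp.1.2 _ hq.1.2 hne
    have h2 : z p.2 - z q.2 = -(z p.1 - z p.2) + (z q.1 - z q.2) := by rw [h]; ring
    have h3 := nd_add_le (-(z p.1 - z p.2)) (z q.1 - z q.2)
    rw [nd_neg, ← h2] at h3
    linarith [hp.2, hq.2]

lemma Q_mono (z : ℕ → ℝ) {X Y : Finset ℕ} (h : X ⊆ Y) (δ : ℝ) : Q z X X δ ≤ Q z Y Y δ := by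
  unfold Q
  apply Finset.card_le_card
  intro p hp
  rw [Finset.mem_filter, Finset.mem_product] at hp ⊢
  exact ⟨⟨h hp.1.1, h hp.1.2⟩, hp.2⟩

lemma Q_U (S : ℕ → ℕ) (z : ℕ → ℝ) (δ : ℝ) (K : ℕ)
    (hsep : ∀ k, k < K → ∀ p ∈ B S k, ∀ q ∈ B S k, p ≠ q → 2 * δ ≤ nd (z p - z q)) :
    Q z (U S K) (U S K) δ ≤ 3 * 2 ^ K := by
  induction K with
  | zero => simp [U, Q]
  | succ K ih =>
    rw [U_succ]
    have h1 := Q_union_le z (U S K) (B S K) δ
    have h2 := Q_le_of_sep z (U S K) (B S K) δ (hsep K (by omega))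
    have h3 := Q_le_of_sep z (B S K) (B S K) δ (hsep K (by omega))
    have h4 := U_card (S := S) K
    rw [B_card] at h3
    have h5 := ih (fun k hk => hsep k (by omega))
    rw [pow_succ]
    omega

lemma count_not' (p : ℕ → Prop) [DecidablePred p] (N : ℕ) :
    Nat.count (fun n => ¬ p n) N + Nat.count p N = N := by
  rw [Nat.count_eq_card_filter_range, Nat.count_eq_card_filter_range, add_comm,
    Finset.card_filter_add_card_filter_not, card_range]

lemma pow_blk_lim {S : ℕ → ℕ} (hS : ∀ k, S k + 2 ^ k ≤ S (k + 1))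
    (hlim : Tendsto (fun k => (2 : ℝ) ^ k / S k) atTop (𝓝 0)) :
    Tendsto (fun N : ℕ => (2 : ℝ) ^ (blk S N) / N) atTop (𝓝 0) := by
  have h1 := hlim.comp (blk_tendsto hS)
  refine squeeze_zero' (Eventually.of_forall (fun N => by positivity)) ?_ h1
  filter_upwards [eventually_ge_atTop (S 1)] with N hN
  simp only [Function.comp]
  have h2 : S 0 ≤ N := ((S_strictMono hS).monotone (Nat.zero_le 1)).trans hN
  have h3 := S_blk_le N h2
  have h4 : 1 ≤ blk S N := le_blk hS 1 N hN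
  have h5 : 1 ≤ S (blk S N) := h4.trans (le_S hS _)
  apply div_le_div_of_nonneg_left (by positivity) (by exact_mod_cast h5) (by exact_mod_cast h3)

theorem ppc_seq (α : ℝ) (hα : Irrational α) {S : ℕ → ℕ} (hS : ∀ k, S k + 2 ^ k ≤ S (k + 1))
    (hlim : Tendsto (fun k => (2 : ℝ) ^ k / S k) atTop (𝓝 0)) :
    ∃ a : ℕ → ℕ, StrictMono a ∧ (∀ n, 0 < a n) ∧
      (∀ k, ∃ c D, ∀ i, i < 2 ^ k → a (S k + i) = c + i * D) ∧
      PPC (fun n => (a n : ℝ) * α) := by
  classical
  obtain ⟨y, hy⟩ := exists_ppc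
  set ρ : ℕ → ℕ := fun n => Nat.count (fun m => ¬ cmb S m) n with hρ
  have hd : ∀ k : ℕ, ∃ d : ℕ, 0 < d ∧
      nd (d * α - 1 / ((2 ^ k : ℕ) : ℝ)) ≤ 1 / (2 * ((2 ^ k : ℕ) : ℝ) ^ 2) :=
    fun k => exists_pick α hα 0 _ _ (by positivity)
  choose d hd0 hd1 using hd
  have hp : ∀ n m : ℕ, ∃ a : ℕ, m < a ∧ nd (a * α - y (ρ n)) ≤ 1 / 2 ^ n :=
    fun n m => exists_pick α hα m _ _ (by positivity)
  choose pick hp0 hp1 using hp
  refine ⟨seq S d pick, seq_strictMono hd0 hp0, seq_pos hd0 hp0,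
    fun k => ⟨_, _, fun i hi => seq_block hS k i hi⟩, ?_⟩
  set z : ℕ → ℝ := fun n => (seq S d pick n : ℝ) * α with hz
  have hpow := pow_blk_lim hS hlim
  refine ppc_compare z y hy ρ (fun N => (range N).filter (fun n => ¬ cmb S n ∧ LL N ≤ n))
    (fun N => (range N).filter (fun n => cmb S n ∨ n < LL N)) (fun N => range (LL N))
    (fun N => Nat.count (fun n => ¬ cmb S n) N) (fun N => 1 / (N : ℝ) ^ 2) ?_ ?_ ?_ ?_ ?_ ?_ ?_
    ?_ ?_ ?_
  · intro N
    ext n
    simp only [Finset.mem_union, Finset.mem_filter]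
    constructor
    · rintro (h | h)
      · exact h.1
      · exact h.1
    · intro h
      by_cases h1 : cmb S n
      · right; exact ⟨h, Or.inl h1⟩
      · rcases lt_or_ge n (LL N) with h2 | h2
        · right; exact ⟨h, Or.inr h2⟩
        · left; exact ⟨h, h1, h2⟩
  · intro N n hn m hm h
    rw [Finset.mem_coe, Finset.mem_filter] at hn hm
    exact Nat.count_injective hn.2.1 hm.2.1 h
  · intro N
    have := count_not' (cmb S) N
    show Nat.count (fun n => ¬ cmb S n) N ≤ N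
    omega
  · intro N m hm
    rw [Finset.mem_image] at hm
    obtain ⟨n, hn, rfl⟩ := hm
    rw [Finset.mem_filter, mem_range] at hn
    rw [mem_range]
    exact Nat.count_strict_mono hn.2.1 hn.1
  · intro N m hm
    rw [mem_range] at hm
    obtain ⟨n, h1, h2, h3⟩ := count_surj _ N m hm
    rw [Finset.mem_union]
    rcases lt_or_ge n (LL N) with h4 | h4
    · right
      rw [mem_range, ← h3]
      have : Nat.count (fun n => ¬ cmb S n) n ≤ n := by
        have := count_not' (cmb S) n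
        omega
      omega
    · left
      rw [Finset.mem_image]
      refine ⟨n, ?_, h3⟩
      rw [Finset.mem_filter, mem_range]
      exact ⟨h1, h2, h4⟩
  · intro N n hn
    rw [Finset.mem_filter, mem_range] at hn
    obtain ⟨h1, h2, h3⟩ := hn
    obtain ⟨m, hm⟩ := seq_not_cmb (d := d) (pick := pick) n h2
    have h5 : z n = (pick n m : ℝ) * α := by
      rw [hz]
      simp only [hm]
    rw [h5]
    refine (hp1 n m).trans ?_
    have hNR : (0 : ℝ) < N := by
      have : 0 < N := by omega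
      exact_mod_cast this
    have h6 : N < 2 ^ (Nat.log 2 N + 1) := Nat.lt_pow_succ_log_self (by norm_num) N
    have h6R : (N : ℝ) ≤ 2 ^ (Nat.log 2 N + 1) := by exact_mod_cast h6.le
    have h7 : (N : ℝ) ^ 2 ≤ 2 ^ LL N := by
      unfold LL
      rw [mul_comm, pow_mul]
      exact pow_le_pow_left₀ hNR.le h6R 2
    have h8 : (1 : ℝ) / 2 ^ n ≤ 1 / 2 ^ LL N := by
      apply one_div_le_one_div_of_le (by positivity)
      exact pow_le_pow_right₀ (by norm_num) h3
    refine h8.trans ?_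
    exact one_div_le_one_div_of_le (by positivity) h7
  · refine (tendsto_one_div_atTop_nhds_zero_nat (𝕜 := ℝ)).congr' ?_
    filter_upwards [eventually_ge_atTop 1] with N hN
    have hNR : (0 : ℝ) < N := by exact_mod_cast hN
    field_simp
  · have h1 : Tendsto (fun N : ℕ => 1 - 2 * ((2 : ℝ) ^ (blk S N) / N)) atTop (𝓝 (1 - 2 * 0)) :=
      tendsto_const_nhds.sub (hpow.const_mul 2)
    rw [mul_zero, sub_zero] at h1
    refine tendsto_of_tendsto_of_tendsto_of_le_of_le' h1 tendsto_const_nhds ?_ ?_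
    · filter_upwards [eventually_ge_atTop 1] with N hN
      have hNR : (0 : ℝ) < N := by exact_mod_cast hN
      have h2 : Nat.count (cmb S) N ≤ 2 ^ (blk S N + 1) := by
        rw [Nat.count_eq_card_filter_range]
        refine (Finset.card_le_card ?_).trans (U_card (S := S) (blk S N + 1))
        intro n hn
        rw [Finset.mem_filter, mem_range] at hn
        exact mem_U_of_cmb hS n N hn.1 hn.2
      have h4 := count_not' (cmb S) N
      have h5 : N ≤ Nat.count (fun n => ¬ cmb S n) N + 2 ^ (blk S N + 1) := by omega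
      have h5R : (N : ℝ) ≤ Nat.count (fun n => ¬ cmb S n) N + 2 ^ (blk S N + 1) := by
        exact_mod_cast h5
      rw [le_div_iff₀ hNR, sub_mul, mul_assoc, div_mul_cancel₀ _ hNR.ne']
      rw [pow_succ] at h5R
      linarith
    · filter_upwards [eventually_ge_atTop 1] with N hN
      have hNR : (0 : ℝ) < N := by exact_mod_cast hN
      rw [div_le_one hNR]
      have h4 := count_not' (cmb S) N
      have : Nat.count (fun n => ¬ cmb S n) N ≤ N := by omega
      exact_mod_cast this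
  · intro s hs
    have h1 := ((hpow.const_mul (6 : ℝ)).add LL_lim).const_mul (6 : ℝ)
    rw [mul_zero, add_zero, mul_zero] at h1
    refine squeeze_zero' (Eventually.of_forall (fun N => by positivity)) ?_ h1
    have hs1 : ∀ᶠ N : ℕ in atTop, s / (N : ℝ) ≤ 1 := by
      have h1 : Tendsto (fun N : ℕ => s / (N : ℝ)) atTop (𝓝 0) :=
        tendsto_const_div_atTop_nhds_zero_nat s
      exact (h1.eventually (gt_mem_nhds one_pos)).mono (fun N h => h.le)
    have hs2 : ∀ᶠ N : ℕ in atTop, (2 : ℝ) ^ (blk S N) / N < 1 / (4 * s) :=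
      hpow.eventually (gt_mem_nhds (by positivity))
    filter_upwards [eventually_ge_atTop 1, hs1, hs2] with N hN hsN hsk
    have hNR : (0 : ℝ) < N := by exact_mod_cast hN
    have hδ0 : 0 < s / N := div_pos hs hNR
    have hsub : (range N).filter (fun n => cmb S n ∨ n < LL N) ⊆
        U S (blk S N + 1) ∪ range (LL N) := by
      intro n hn
      rw [Finset.mem_filter, mem_range] at hn
      rw [Finset.mem_union]
      rcases hn.2 with h | h
      · left; exact mem_U_of_cmb hS n N hn.1 h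
      · right; exact mem_range.mpr h
    have h2 := Q_mono z hsub (s / N)
    have h3 := Q_union_le6 z (U S (blk S N + 1)) (range (LL N)) _ hδ0 hsN
    have h4 : Q z (U S (blk S N + 1)) (U S (blk S N + 1)) (s / N) ≤ 3 * 2 ^ (blk S N + 1) := by
      apply Q_U
      intro k hk p hp q hq hpq
      unfold B at hp hq
      rw [Finset.mem_Ico] at hp hq
      obtain ⟨i, rfl⟩ := Nat.exists_eq_add_of_le hp.1
      obtain ⟨j, rfl⟩ := Nat.exists_eq_add_of_le hq.1
      have hi : i < 2 ^ k := by omega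
      have hj : j < 2 ^ k := by omega
      have h8 : z (S k + i) = (seq S d pick (S k) : ℝ) * α + (i : ℝ) * ((d k : ℝ) * α) := by
        rw [hz]
        simp only [seq_block hS k i hi]
        push_cast
        ring
      have h9 : z (S k + j) = (seq S d pick (S k) : ℝ) * α + (j : ℝ) * ((d k : ℝ) * α) := by
        rw [hz]
        simp only [seq_block hS k j hj]
        push_cast
        ring
      rw [h8, h9]
      refine le_trans ?_ (sep (2 ^ k) (by positivity) _ _ (hd1 k) i j hi hj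
        (fun h => hpq (by rw [h])))
      have h10 : ((2 ^ k : ℕ) : ℝ) ≤ 2 ^ (blk S N) := by
        push_cast
        exact pow_le_pow_right₀ (by norm_num) (by omega)
      have h11 : (0 : ℝ) < ((2 ^ k : ℕ) : ℝ) := by positivity
      rw [div_lt_div_iff₀ hNR (by positivity)] at hsk
      rw [← mul_div_assoc, div_le_div_iff₀ hNR (by positivity)]
      nlinarith
    have h6 := Q_le_card_sq z (range (LL N)) (s / N)
    rw [card_range] at h6
    have h7 : Q z ((range N).filter (fun n => cmb S n ∨ n < LL N))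
        ((range N).filter (fun n => cmb S n ∨ n < LL N)) (s / N) ≤
        6 * (6 * 2 ^ (blk S N) + LL N ^ 2) := by
      rw [pow_succ] at h4
      omega
    have h7R : (Q z ((range N).filter (fun n => cmb S n ∨ n < LL N))
        ((range N).filter (fun n => cmb S n ∨ n < LL N)) (s / N) : ℝ) ≤
        6 * (6 * 2 ^ (blk S N) + (LL N : ℝ) ^ 2) := by exact_mod_cast h7
    rw [div_le_iff₀ hNR]
    refine h7R.trans (le_of_eq ?_)
    field_simp
  · simp only [card_range]
    exact LL_lim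

lemma exists_L (ψ : ℕ → ℝ) (hψ : Tendsto ψ atTop atTop) :
    ∃ L : ℕ → ℕ, Monotone L ∧ (∀ k, 1 ≤ L k) ∧ Tendsto L atTop atTop ∧
      ∀ᶠ j in atTop, ∀ N, j ≤ N → 512 * (L j : ℝ) ^ 3 ≤ ψ N := by
  classical
  let P : ℕ → ℕ → Prop := fun j m => ∀ N, j ≤ N → 512 * (m : ℝ) ^ 3 ≤ ψ N
  have hev : ∀ m, ∀ᶠ j in atTop, P j m := by
    intro m
    obtain ⟨T, hT⟩ := eventually_atTop.mp (hψ.eventually (eventually_ge_atTop (512 * (m : ℝ) ^ 3)))
    filter_upwards [eventually_ge_atTop T] with j hj N hN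
    exact hT N (hj.trans hN)
  refine ⟨fun j => max 1 (Nat.findGreatest (P j) j), ?_, fun k => le_max_left _ _, ?_, ?_⟩
  · intro i j hij
    apply max_le_max le_rfl
    apply Nat.findGreatest_mono _ hij
    intro m hm N hN
    exact hm N (hij.trans hN)
  · rw [tendsto_atTop]
    intro b
    filter_upwards [hev b, eventually_ge_atTop b] with j h1 h2
    exact le_max_of_le_right (Nat.le_findGreatest h2 h1)
  · filter_upwards [hev 1, eventually_ge_atTop 1] with j h1 h2
    have h3 : 1 ≤ Nat.findGreatest (P j) j := Nat.le_findGreatest h2 h1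
    rw [max_eq_right h3]
    exact Nat.findGreatest_spec (P := P j) h2 h1

theorem main (ψ : ℕ → ℝ) (hψ : Tendsto ψ atTop atTop) (α : ℝ) (hα : Irrational α) :
    ∃ a : ℕ → ℕ, StrictMono a ∧ (∀ n, 0 < a n) ∧
      (∀ᶠ N : ℕ in atTop, (N : ℝ) ^ 3 / ψ N ≤ en a N) ∧ PPC (fun n => (a n : ℝ) * α) := by
  obtain ⟨L, hL1, hL2, hL3, hL4⟩ := exists_L ψ hψ
  set S : ℕ → ℕ := fun k => L k * 2 ^ k with hSdef
  have hS : ∀ k, S k + 2 ^ k ≤ S (k + 1) := by
    intro k
    simp only [hSdef]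
    have h1 := hL1 (Nat.le_succ k)
    have h2 := hL2 k
    rw [pow_succ]
    have h3 : 0 < 2 ^ k := by positivity
    simp only [Nat.succ_eq_add_one] at h1
    nlinarith
  have hlim : Tendsto (fun k => (2 : ℝ) ^ k / S k) atTop (𝓝 0) := by
    have h1 : Tendsto (fun k => ((L k : ℕ) : ℝ)⁻¹) atTop (𝓝 0) :=
      tendsto_inv_atTop_zero.comp (tendsto_natCast_atTop_atTop.comp hL3)
    refine h1.congr (fun k => ?_)
    simp only [hSdef]
    have : (0 : ℝ) < L k := by exact_mod_cast hL2 k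
    push_cast
    field_simp
  obtain ⟨a, ha1, ha2, ha3, ha4⟩ := ppc_seq α hα hS hlim
  refine ⟨a, ha1, ha2, ?_, ha4⟩
  obtain ⟨J, hJ⟩ := eventually_atTop.mp hL4
  filter_upwards [eventually_ge_atTop (S (J + 2))] with N hN
  have hb := le_blk hS (J + 2) N hN
  obtain ⟨k, hk⟩ : ∃ k, blk S N = k + 2 := ⟨blk S N - 2, by omega⟩
  have h0 : S 0 ≤ N := ((S_strictMono hS).monotone (Nat.zero_le _)).trans hN
  have h1 := S_blk_le N h0
  have h2 := lt_S_blk hS N
  rw [hk] at h1 h2
  obtain ⟨c, D, hcD⟩ := ha3 (k + 1)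
  have h3 : (2 ^ k) ^ 3 ≤ en a N := by
    apply en_ge a N (S (k + 1)) (2 ^ k) c D
    · have := hS (k + 1)
      rw [pow_succ, show k + 1 + 1 = k + 2 from rfl] at this
      omega
    · intro i hi
      exact hcD i (by rw [pow_succ]; omega)
  have h3R : ((2 : ℝ) ^ k) ^ 3 ≤ en a N := by exact_mod_cast h3
  refine le_trans ?_ h3R
  have h4 : k + 2 + 1 ≤ N := by
    have h5 : 2 ^ (k + 2) ≤ S (k + 2) := by
      simp only [hSdef]
      exact Nat.le_mul_of_pos_left _ (hL2 _)
    have h6 : k + 2 < 2 ^ (k + 2) := Nat.lt_two_pow_self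
    omega
  have h5 := hJ (k + 2 + 1) (by omega) N h4
  have hLpos : (0 : ℝ) < L (k + 2 + 1) := by exact_mod_cast hL2 _
  have hψpos : 0 < ψ N := lt_of_lt_of_le (by positivity) h5
  rw [div_le_iff₀ hψpos]
  have h6 : (N : ℝ) ≤ L (k + 2 + 1) * (8 * 2 ^ k) := by
    have : N ≤ L (k + 2 + 1) * (8 * 2 ^ k) := by
      simp only [hSdef] at h2
      have h7 : 2 ^ (k + 2 + 1) = 8 * 2 ^ k := by ring
      rw [h7] at h2
      exact h2.le
    exact_mod_cast this
  calc (N : ℝ) ^ 3 ≤ (L (k + 2 + 1) * (8 * 2 ^ k)) ^ 3 :=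
        pow_le_pow_left₀ (Nat.cast_nonneg _) h6 3
    _ = ((2 : ℝ) ^ k) ^ 3 * (512 * (L (k + 2 + 1) : ℝ) ^ 3) := by ring
    _ ≤ ((2 : ℝ) ^ k) ^ 3 * ψ N := mul_le_mul_of_nonneg_left h5 (by positivity)

end Pool.Agent.H668Z.Energy
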